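import Pool.Agent.Work.MP_41a91a_an.Hedge.Main

set_option autoImplicit false

namespace Pool.Agent.Results.MP_41a91a_an.AlmostEvery

open MeasureTheory Pool.Agent.Work.MP_41a91a_an Pool.Agent.Work.MP_41a91a_an.Hedge

/-- In a distal extension of an almost automorphic minimal system, for every invariant Borel
probability measure almost every point lies in a fibre over the rotation all of whose points are
multiply minimal. -/
theorem result (X Y G : Type) [MetricSpace X] [CompactSpace X] [MetricSpace Y] [CompactSpace Y]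
    [AddCommGroup G] [MetricSpace G] [IsTopologicalAddGroup G] [CompactSpace G]
    (T : X ≃ₜ X) (S : Y ≃ₜ Y) (a : G) (φ : X → Y) (π : Y → G)
    (hS : IsMinimalSystem S) (hφ : IsFactorMap T S φ) (hd : IsDistalExt T φ)
    (hπ : IsFactorMap S (Homeomorph.addRight a) π) (h1 : ∃ y₀, ∀ y, π y = π y₀ → y = y₀)
    [MeasurableSpace X] [BorelSpace X] (μ : Measure X) [IsProbabilityMeasure μ]
    (hμ : MeasurePreserving T μ μ) :
    ∀ᵐ x ∂μ, ∀ x', π (φ x') = π (φ x) → ∀ d : ℕ, IsMinimalPoint (tau T d) fun _ => x' :=
  main hS hφ hd hπ h1 μ hμ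

end Pool.Agent.Results.MP_41a91a_an.AlmostEvery
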