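import Pool.Agent.Work.MP_41a91a_an.Generic

set_option autoImplicit false

namespace Pool.Agent.Results.MP_41a91a_an.MultiplyMinimal

open Pool.Agent.Work.MP_41a91a_an

/-- Every minimal PI system has a nonempty dense `Gδ` set of multiply minimal points. -/
theorem result (X : Type) [MetricSpace X] [CompactSpace X] [Nonempty X] (T : X ≃ₜ X)
    (hT : IsMinimalSystem T) (hPI : IsPI T) :
    ∃ G : Set X, G.Nonempty ∧ IsGδ G ∧ Dense G ∧
      ∀ x ∈ G, ∀ d : ℕ, IsMinimalPoint (tau T d) (fun _ => x) := by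
  obtain ⟨G, hG, h1, h2⟩ := mem_residual.1 (main hT hPI)
  exact ⟨G, h2.nonempty, h1, h2, fun x hx => hG hx⟩

end Pool.Agent.Results.MP_41a91a_an.MultiplyMinimal
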